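import Pool.Agent.H986R3.FW3

set_option autoImplicit false

/-! Structure of the possible exceptions: large composite numbers without a witness
`1 < b ≤ 2 (log n)²` of the strong test. In particular every large composite number with a prime
factor `q ≥ n^(2/3)`, or with a prime factor `q` for which `gcd(q - 1, n - 1) ≤ √q`, has a witness
in this range, unconditionally. -/

namespace Pool.Agent.Results.MP_0b15c0_nt.ExceptionStructure

/-- `n` fails the strong test for the base `b`: writing `n - 1 = 2 ^ j * d` with `d` odd, neither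
`b ^ d = 1` nor `b ^ (2 ^ i * d) = -1` for some `i < j`, modulo `n`. -/
def IsWitness (n b : ℕ) : Prop :=
  ∀ j d : ℕ, n - 1 = 2 ^ j * d → Odd d →
    (b : ZMod n) ^ d ≠ 1 ∧ ∀ i : ℕ, i < j → (b : ZMod n) ^ (2 ^ i * d) ≠ -1

/-- Let `n` be a large composite number without a witness in `1 < b ≤ 2 (log n)²`. Then `n` is
squarefree; each prime factor `q` of `n` satisfies `q < gcd(q - 1, n - 1)²` and `q³ < n²`; and for
some divisor `m > 1` of `n`, which is `n` itself or `n` divided by a prime, all primes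
`ℓ ≤ 2 (log n)²` satisfy `(ℓ / m) = 1`. -/
theorem result : ∃ N : ℕ, ∀ n : ℕ, N ≤ n → ¬ n.Prime →
    (¬ ∃ b : ℕ, 1 < b ∧ (b : ℝ) ≤ 2 * (Real.log n) ^ 2 ∧ IsWitness n b) →
    Squarefree n ∧
    (∀ q : ℕ, q.Prime → q ∣ n → q < (Nat.gcd (q - 1) (n - 1)) ^ 2 ∧ q ^ 3 < n ^ 2) ∧
    ∃ m : ℕ, 1 < m ∧ m ∣ n ∧ (m = n ∨ (n / m).Prime) ∧
      ∀ ℓ : ℕ, ℓ.Prime → (ℓ : ℝ) ≤ 2 * (Real.log n) ^ 2 → jacobiSym (ℓ : ℤ) m = 1 := by
  obtain ⟨N, hN⟩ := Pool.Agent.H986R3.FW.exc_struct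
  refine ⟨max N 2, fun n hn hnp hex => hN n ((le_max_left _ _).trans hn)
    ⟨(le_max_right _ _).trans hn, hnp, fun b hb1 hb2 => ?_⟩⟩
  by_contra hp
  refine hex ⟨b, hb1, hb2, fun j d hjd hd => ⟨fun e => ?_, fun i hi e => ?_⟩⟩
  · exact hp ⟨j, d, hjd, hd, Or.inl e⟩
  · exact hp ⟨j, d, hjd, hd, Or.inr ⟨i, hi, e⟩⟩

end Pool.Agent.Results.MP_0b15c0_nt.ExceptionStructure
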