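import Pool.Agent.H986R3.FW2
import Pool.Agent.H471R4.BW.Final
import Pool.Agent.H471R4.BW.Many
import Pool.Agent.H471R4.BW.BFM
import Pool.Agent.H471R4.BW.BGE
import Pool.Agent.H471R4.BW.BIN
import Pool.Agent.H471R4.BW.COR
import Pool.Agent.H471R4.BW.CRD
import Pool.Agent.H471R4.BW.CS0
import Pool.Agent.H471R4.BW.CS1
import Pool.Agent.H471R4.BW.CS2
import Pool.Agent.H471R4.BW.CSL
import Pool.Agent.H471R4.BW.HOL
import Pool.Agent.H471R4.BW.Hch
import Pool.Agent.H471R4.BW.MNP
import Pool.Agent.H471R4.BW.MOM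
import Pool.Agent.H471R4.BW.MSQ
import Pool.Agent.H471R4.BW.NU1
import Pool.Agent.H471R4.BW.NU2b
import Pool.Agent.H471R4.BW.NV0
import Pool.Agent.H471R4.BW.NV1
import Pool.Agent.H471R4.BW.SHF
import Pool.Agent.H471R4.BW.SMO
import Pool.Agent.H471R4.BW.SNG
import Pool.Agent.H471R4.BW.TRP
import Pool.Agent.H471R4.BW.TUP
import Pool.Agent.H471R4.BW.VIN
import Pool.Agent.H471R4.BW.WEL

set_option autoImplicit false

/-! Unconditional bound for the least witness of the strong pseudoprimality test outside the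
Carmichael numbers with exactly three prime factors: every other large composite `n` has a witness
`b ≤ n ^ (1 / (8 √e) + ε)`, where `1 / (8 √e) = 0.0758...`, and for `n` that is not a Carmichael
number this `b` is even a Fermat witness. -/

namespace Pool.Agent.Results.MP_0b15c0_nt.NonCarmichael

open Pool.Agent.H471R4.BW

/-- `n` fails the strong test for the base `b`: writing `n - 1 = 2 ^ j * d` with `d` odd, neither
`b ^ d = 1` nor `b ^ (2 ^ i * d) = -1` for some `i < j`, modulo `n`. -/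
def IsWitness (n b : ℕ) : Prop :=
  ∀ j d : ℕ, n - 1 = 2 ^ j * d → Odd d →
    (b : ZMod n) ^ d ≠ 1 ∧ ∀ i : ℕ, i < j → (b : ZMod n) ^ (2 ^ i * d) ≠ -1

/-- `n` is a Carmichael number: composite, and `b ^ (n - 1) = 1` modulo `n` for each `b` coprime
to `n`. -/
def IsCarmichael (n : ℕ) : Prop :=
  1 < n ∧ ¬ n.Prime ∧ ∀ b : ℕ, Nat.Coprime b n → (b : ZMod n) ^ (n - 1) = 1

/-- For every `ε > 0` every large composite `n`, except possibly the Carmichael numbers with exactly
three prime factors, has a witness `1 < b ≤ n ^ (1 / (8 √e) + ε)`; if `n` is not a Carmichael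
number, then moreover `b ^ (n - 1) ≠ 1` modulo `n`. -/
theorem result (ε : ℝ) (hε : 0 < ε) : ∃ n0 : ℕ, ∀ n : ℕ, n0 ≤ n → ¬ n.Prime →
    ¬ (IsCarmichael n ∧ n.primeFactors.card = 3) → ∃ b : ℕ, 1 < b ∧
      (b : ℝ) ≤ (n : ℝ) ^ (1 / (8 * Real.exp (1 / 2)) + ε) ∧ IsWitness n b ∧
      (¬ IsCarmichael n → (b : ZMod n) ^ (n - 1) ≠ 1) := by
  have hbin : BIN := bin (mom tup) nu1 nu2b shf hol
  have hbge : BGE := bge (bfm hbin) vin
  have hsng : SNG := sng hbge
  have htrp : TRP := trp hbge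
  have hcs1 : CS1 := cs1 cs0
  have hcs2 : CS2 := cs2 cs0
  have hcsl : CSL := csl (wel (crd (cor (nv1 nv0))))
  have hmnp : MNP := mnp hsng smo hcsl hch
  obtain ⟨n1, hn1⟩ := Pool.Agent.H986R3.FW.nonCarm hsng smo hcsl hch ε hε
  obtain ⟨n2, hn2⟩ := many hsng htrp hcs1 hcs2 4 le_rfl ε hε
  obtain ⟨n3, hn3⟩ := hmnp ε hε
  obtain ⟨n4, hn4⟩ := msq
  obtain ⟨n5, hn5⟩ := log_sq_le (1 / (8 * Real.exp (1 / 2))) (by positivity)
  refine ⟨max (max n1 n2) (max (max n3 n4) (max n5 2)), fun n hn hnp hex => ?_⟩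
  simp only [max_le_iff] at hn
  obtain ⟨⟨c1, c2⟩, ⟨c3, c4⟩, c5, c6⟩ := hn
  have hr : (1 : ℝ) ≤ n := by exact_mod_cast (by omega : 1 ≤ n)
  by_cases hC : IsCarmichael n
  · suffices h : ∃ b : ℕ, 1 < b ∧ (b : ℝ) ≤ (n : ℝ) ^ (1 / (8 * Real.exp (1 / 2)) + ε) ∧
        ¬ Pool.Agent.H379R2.W.Passes n b by
      obtain ⟨b, hb1, hb2, hb3⟩ := h
      exact ⟨b, hb1, hb2, fun j d hjd hd => not_passes hb3 j d hjd hd, fun h => absurd hC h⟩
    by_cases h4 : 4 ≤ n.primeFactors.card
    · obtain ⟨b, hb1, hb2, hb3⟩ := hn2 n c2 h4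
      refine ⟨b, hb1, hb2.trans (Real.rpow_le_rpow_of_exponent_le hr ?_), hb3⟩
      have e1 : Real.exp (1 / 2) ≤ Real.exp (3 / 4) := Real.exp_le_exp.mpr (by norm_num)
      have e2 : 1 / (2 * ((4 : ℕ) : ℝ) * Real.exp (3 / 4)) ≤ 1 / (8 * Real.exp (1 / 2)) := by
        apply one_div_le_one_div_of_le (by positivity)
        push_cast
        linarith
      linarith
    · by_cases hsq : ∃ p : ℕ, p.Prime ∧ p ^ 2 ∣ n
      · obtain ⟨p, hp, hpn⟩ := hsq
        obtain ⟨w, hw1, hw2, hw3⟩ := hn4 n c4 p hp hpn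
        refine ⟨w, hw1, hw2.trans ((hn5 n c5).trans ?_), hw3⟩
        exact Real.rpow_le_rpow_of_exponent_le hr (by linarith)
      · have hsf : Squarefree n := by
          rw [Nat.squarefree_iff_prime_squarefree]
          intro p hp hpp
          exact hsq ⟨p, hp, by rwa [pow_two]⟩
        have hprod := Nat.prod_primeFactors_of_squarefree hsf
        have hcases : n.primeFactors.card = 0 ∨ n.primeFactors.card = 1 ∨
            n.primeFactors.card = 2 := by
          have h3 : n.primeFactors.card ≠ 3 := fun h => hex ⟨hC, h⟩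
          omega
        rcases hcases with h0 | h0 | h0
        · rw [Finset.card_eq_zero] at h0
          rw [h0, Finset.prod_empty] at hprod
          omega
        · rw [Finset.card_eq_one] at h0
          obtain ⟨p, hp⟩ := h0
          rw [hp, Finset.prod_singleton] at hprod
          have : p ∈ n.primeFactors := by rw [hp]; simp
          exact absurd (hprod ▸ Nat.prime_of_mem_primeFactors this) hnp
        · rw [Finset.card_eq_two] at h0
          obtain ⟨p, q, hpq, hpqe⟩ := h0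
          rw [hpqe, Finset.prod_pair hpq] at hprod
          have hpm : p.Prime := Nat.prime_of_mem_primeFactors (by rw [hpqe]; simp : p ∈ n.primeFactors)
          have hqm : q.Prime := Nat.prime_of_mem_primeFactors (by rw [hpqe]; simp : q ∈ n.primeFactors)
          rcases lt_or_gt_of_ne hpq with hlt | hlt
          · exact hn3 n c3 p q hpm hqm hlt hprod.symm
          · exact hn3 n c3 q p hqm hpm hlt (by rw [mul_comm]; exact hprod.symm)
  · have ha : ∃ a : ℕ, Nat.Coprime a n ∧ (a : ZMod n) ^ (n - 1) ≠ 1 := by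
      by_contra hno
      push Not at hno
      exact hC ⟨by omega, hnp, hno⟩
    obtain ⟨b, hb1, hb2, hb3⟩ := hn1 n c1 ha
    refine ⟨b, hb1, hb2, fun j d hjd hd => not_passes (fun hp => ?_) j d hjd hd, fun _ => hb3⟩
    exact hb3 (Pool.Agent.H379R2.W.pow_of_passes hp)

end Pool.Agent.Results.MP_0b15c0_nt.NonCarmichael
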